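import Mathlib

/-!
# Random sign functions and translates of small sets
-/

namespace Pool.Agent.TH170.GH

open Finset MulAction

variable {G : Type*} [Group G] [Fintype G] {X : Type*} [Fintype X] [DecidableEq X] [MulAction G X]

theorem card_smul_eq_le {m : ℕ} (x y : X) (hm : m ≤ (Set.ncard (orbit G x))) [DecidableEq G] :
    (univ.filter (fun g : G => g • x = y)).card * m ≤ Fintype.card G := by
  classical
  by_cases h : ∃ g₀ : G, g₀ • x = y
  · obtain ⟨g₀, hg₀⟩ := h
    have h1 : (univ.filter (fun g : G => g • x = y)).card = Nat.card (stabilizer G x) := by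
      rw [Nat.card_eq_fintype_card, Fintype.card_subtype]
      refine Finset.card_nbij' (fun g => g₀⁻¹ * g) (fun g => g₀ * g) ?_ ?_ ?_ ?_
      · intro g hg
        rw [Finset.mem_coe, Finset.mem_filter] at hg
        rw [Finset.mem_coe, Finset.mem_filter, mem_stabilizer_iff]
        refine ⟨Finset.mem_univ _, ?_⟩
        rw [mul_smul, hg.2, ← hg₀, inv_smul_smul]
      · intro g hg
        rw [Finset.mem_coe, Finset.mem_filter, mem_stabilizer_iff] at hg
        rw [Finset.mem_coe, Finset.mem_filter]
        refine ⟨Finset.mem_univ _, ?_⟩
        rw [mul_smul, hg.2, hg₀]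
      · intro g _
        simp
      · intro g _
        simp
    have h2 : Set.ncard (orbit G x) * Nat.card (stabilizer G x) = Fintype.card G := by
      rw [← Nat.card_coe_set_eq, Nat.card_congr (orbitEquivQuotientStabilizer G x), mul_comm,
        ← Nat.card_eq_fintype_card]
      exact (stabilizer G x).card_mul_index
    rw [h1, ← h2, mul_comm]
    exact Nat.mul_le_mul_right _ hm
  · have h1 : univ.filter (fun g : G => g • x = y) = ∅ := by
      rw [Finset.filter_eq_empty_iff]
      intro g _ hg
      exact h ⟨g, hg⟩
    rw [h1, Finset.card_empty, zero_mul]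
    exact Nat.zero_le _

/-- The translates of `S` by the elements of a list are disjoint from each other and from the
conjugates. -/
theorem exists_greedy (inv : X → X) {m : ℕ} (hm : ∀ x : X, m ≤ Set.ncard (orbit G x))
    (S : Finset X) (t : ℕ) (ht : ∀ a < t, 2 * S.card * S.card * a < m) :
    ∃ γ : ℕ → G, ∀ a < t, ∀ b < a, ∀ x ∈ S, ∀ y ∈ S, γ a • x ≠ γ b • y ∧ γ a • x ≠ inv (γ b • y) := by
  classical
  induction t with
  | zero => exact ⟨fun _ => 1, fun a ha => absurd ha (Nat.not_lt_zero a)⟩
  | succ t ih =>
    obtain ⟨γ, hγ⟩ := ih (fun a ha => ht a (by omega))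
    -- the forbidden set
    let U : Finset X := (Finset.range t).biUnion (fun b =>
      S.image (fun y => γ b • y) ∪ S.image (fun y => inv (γ b • y)))
    have hU : U.card ≤ t * (2 * S.card) := by
      refine (Finset.card_biUnion_le_card_mul _ _ (2 * S.card) (fun b _ => ?_)).trans ?_
      · refine (Finset.card_union_le _ _).trans ?_
        have h1 := Finset.card_image_le (s := S) (f := fun y => γ b • y)
        have h2 := Finset.card_image_le (s := S) (f := fun y => inv (γ b • y))
        omega
      · rw [Finset.card_range]
    let Bad : Finset G := S.biUnion (fun x => U.biUnion (fun y => univ.filter (fun g => g • x = y)))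
    have hBad : Bad.card * m ≤ S.card * (U.card * Fintype.card G) := by
      have h1 : Bad.card ≤ ∑ x ∈ S, ∑ y ∈ U, (univ.filter (fun g : G => g • x = y)).card := by
        refine (Finset.card_biUnion_le).trans (Finset.sum_le_sum fun x _ => ?_)
        exact Finset.card_biUnion_le
      calc Bad.card * m ≤ (∑ x ∈ S, ∑ y ∈ U, (univ.filter (fun g : G => g • x = y)).card) * m :=
            Nat.mul_le_mul_right _ h1
        _ = ∑ x ∈ S, ∑ y ∈ U, (univ.filter (fun g : G => g • x = y)).card * m := by
            rw [Finset.sum_mul]
            refine Finset.sum_congr rfl fun x _ => ?_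
            rw [Finset.sum_mul]
        _ ≤ ∑ x ∈ S, ∑ y ∈ U, Fintype.card G := by
            refine Finset.sum_le_sum fun x _ => Finset.sum_le_sum fun y _ => ?_
            exact card_smul_eq_le x y (hm x)
        _ = S.card * (U.card * Fintype.card G) := by
            rw [Finset.sum_const, Finset.sum_const, smul_eq_mul, smul_eq_mul]
    have hlt : Bad.card < Fintype.card G := by
      have h1 := ht t (Nat.lt_succ_self t)
      have hG : 0 < Fintype.card G := Fintype.card_pos
      have h2 : S.card * (U.card * Fintype.card G) ≤ (2 * S.card * S.card * t) * Fintype.card G := by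
        calc S.card * (U.card * Fintype.card G)
            ≤ S.card * ((t * (2 * S.card)) * Fintype.card G) :=
              Nat.mul_le_mul_left _ (Nat.mul_le_mul_right _ hU)
          _ = (2 * S.card * S.card * t) * Fintype.card G := by ring
      have h3 : (2 * S.card * S.card * t) * Fintype.card G < m * Fintype.card G :=
        Nat.mul_lt_mul_of_pos_right h1 hG
      by_contra hcon
      push Not at hcon
      have h4 : Fintype.card G * m ≤ Bad.card * m := Nat.mul_le_mul_right _ hcon
      have h5 : m * Fintype.card G = Fintype.card G * m := mul_comm _ _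
      omega
    obtain ⟨g, hg⟩ : ∃ g : G, g ∉ Bad := by
      by_contra hcon
      push Not at hcon
      have : Bad = univ := Finset.eq_univ_iff_forall.2 hcon
      rw [this, Finset.card_univ] at hlt
      exact lt_irrefl _ hlt
    refine ⟨fun a => if a = t then g else γ a, fun a ha b hb x hx y hy => ?_⟩
    have hbt : b ≠ t := by omega
    simp only [if_neg hbt]
    by_cases hat : a = t
    · rw [if_pos hat]
      have hb' : b ∈ Finset.range t := by
        rw [Finset.mem_range]
        omega
      constructor
      · intro h
        apply hg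
        refine Finset.mem_biUnion.2 ⟨x, hx, Finset.mem_biUnion.2 ⟨γ b • y, ?_, ?_⟩⟩
        · refine Finset.mem_biUnion.2 ⟨b, hb', Finset.mem_union_left _ ?_⟩
          exact Finset.mem_image_of_mem _ hy
        · rw [Finset.mem_filter]
          exact ⟨Finset.mem_univ _, h⟩
      · intro h
        apply hg
        refine Finset.mem_biUnion.2 ⟨x, hx, Finset.mem_biUnion.2 ⟨inv (γ b • y), ?_, ?_⟩⟩
        · refine Finset.mem_biUnion.2 ⟨b, hb', Finset.mem_union_right _ ?_⟩
          exact Finset.mem_image_of_mem (fun y => inv (γ b • y)) hy
        · rw [Finset.mem_filter]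
          exact ⟨Finset.mem_univ _, h⟩
    · rw [if_neg hat]
      exact hγ a (by omega) b hb x hx y hy

end Pool.Agent.TH170.GH
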