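import Mathlib
import Pool.Agent.TH170.GH.Greedy

/-!
# The number of sign functions that avoid all translates of a small set
-/

namespace Pool.Agent.TH170.GH

open Finset MulAction

section signs

variable {X : Type*} [Fintype X] [DecidableEq X]

/-- odd sign functions -/
def Odd' (inv : X → X) : Finset (X → Bool) :=
  univ.filter (fun u => ∀ x, u (inv x) = ! u x)

theorem exists_half (inv : X → X) (hinv : ∀ x, inv (inv x) = x) (hne : ∀ x, inv x ≠ x) {N : ℕ}
    (hN : Fintype.card X = 2 * N) : ∃ H : Finset X, (∀ x, x ∉ H ↔ inv x ∈ H) ∧ H.card = N := by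
  classical
  let e := Fintype.equivFin X
  let H : Finset X := univ.filter (fun x => e x < e (inv x))
  have hHc : ∀ x, x ∉ H ↔ inv x ∈ H := by
    intro x
    simp only [H, Finset.mem_filter, Finset.mem_univ, true_and, hinv, not_lt]
    constructor
    · intro h
      refine lt_of_le_of_ne h ?_
      intro h2
      exact hne x (e.injective h2)
    · intro h
      exact h.le
  refine ⟨H, hHc, ?_⟩
  have h1 : H.card = (univ.filter (fun x => ¬ x ∈ H)).card := by
    refine Finset.card_nbij' inv inv ?_ ?_ ?_ ?_
    · intro x hx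
      rw [Finset.mem_coe, Finset.mem_filter]
      refine ⟨Finset.mem_univ _, ?_⟩
      rw [hHc, hinv]
      exact hx
    · intro x hx
      rw [Finset.mem_coe, Finset.mem_filter] at hx
      exact (hHc x).1 hx.2
    · intro x _
      exact hinv x
    · intro x _
      exact hinv x
  have h2 : (univ.filter (fun x => x ∈ H)).card + (univ.filter (fun x => ¬ x ∈ H)).card =
      (univ : Finset X).card := Finset.card_filter_add_card_filter_not _
  have h3 : univ.filter (fun x => x ∈ H) = H := by
    ext x
    simp
  rw [h3, ← h1, Finset.card_univ, hN] at h2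
  omega

theorem card_odd_le (inv : X → X) (hinv : ∀ x, inv (inv x) = x) (hne : ∀ x, inv x ≠ x) {N : ℕ}
    (hN : Fintype.card X = 2 * N) : (Odd' inv).card ≤ 2 ^ N := by
  classical
  obtain ⟨H, hHc, hcard⟩ := exists_half inv hinv hne hN
  have h1 : (Odd' inv).card ≤ (univ : Finset (H → Bool)).card := by
    refine Finset.card_le_card_of_injOn (fun u => fun x : H => u x.1)
      (fun _ _ => Finset.mem_coe.2 (Finset.mem_univ _)) ?_
    intro u hu v hv huv
    have hu' := (Finset.mem_filter.1 (Finset.mem_coe.1 hu)).2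
    have hv' := (Finset.mem_filter.1 (Finset.mem_coe.1 hv)).2
    funext x
    by_cases hx : x ∈ H
    · exact congrFun huv ⟨x, hx⟩
    · have h2 := (hHc x).1 hx
      have h3 := congrFun huv ⟨inv x, h2⟩
      simp only at h3
      rw [hu' x, hv' x] at h3
      exact Bool.not_inj h3
  rw [Finset.card_univ, Fintype.card_fun, Fintype.card_bool, Fintype.card_coe, hcard] at h1
  exact h1

end signs

section indep

variable {X : Type*} [Fintype X] [DecidableEq X]

/-- the sign functions that are not constant `true` on any of the first `t` sets `γ a '' S` -/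
def Av {S : Type*} [Fintype S] (inv : X → X) (γ : ℕ → S → X) (t : ℕ) : Finset (X → Bool) :=
  (Odd' inv).filter (fun u => ∀ a < t, ∃ x, u (γ a x) = false)

theorem card_av_succ {S : Type*} [Fintype S] [DecidableEq S] (inv : X → X)
    (hinv : ∀ x, inv (inv x) = x) (γ : ℕ → S → X) (hγ : ∀ a, Function.Injective (γ a))
    (hc : ∀ a x y, γ a x ≠ inv (γ a y)) (t : ℕ)
    (hd : ∀ b < t, ∀ x y, γ t x ≠ γ b y ∧ γ t x ≠ inv (γ b y)) :
    (Av inv γ (t + 1)).card * 2 ^ Fintype.card S = (Av inv γ t).card * (2 ^ Fintype.card S - 1) := by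
  classical
  let fib : (S → Bool) → Finset (X → Bool) := fun w =>
    (Av inv γ t).filter (fun u => ∀ x, u (γ t x) = w x)
  -- the flips
  let D : (S → Bool) → X → Prop := fun w y => ∃ x, w x = false ∧ (y = γ t x ∨ y = inv (γ t x))
  let fl : (S → Bool) → (X → Bool) → X → Bool := fun w u y => if D w y then ! u y else u y
  have hDinv : ∀ w y, D w (inv y) ↔ D w y := by
    intro w y
    constructor
    · rintro ⟨x, hx, h | h⟩
      · refine ⟨x, hx, Or.inr ?_⟩
        rw [← h, hinv]
      · refine ⟨x, hx, Or.inl ?_⟩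
        rw [← hinv y, h, hinv]
    · rintro ⟨x, hx, h | h⟩
      · exact ⟨x, hx, Or.inr (by rw [h])⟩
      · exact ⟨x, hx, Or.inl (by rw [h, hinv])⟩
  have hDt : ∀ w x, D w (γ t x) ↔ w x = false := by
    intro w x
    constructor
    · rintro ⟨y, hy, h | h⟩
      · rw [hγ t h]
        exact hy
      · exact absurd h (hc t x y)
    · intro h
      exact ⟨x, h, Or.inl rfl⟩
  have hDb : ∀ w, ∀ b < t, ∀ x, ¬ D w (γ b x) := by
    rintro w b hb x ⟨y, -, h | h⟩
    · exact (hd b hb y x).1 h.symm
    · refine (hd b hb y x).2 ?_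
      rw [h, hinv]
  have hflfl : ∀ w u, fl w (fl w u) = u := by
    intro w u
    funext y
    by_cases h : D w y
    · simp only [fl, if_pos h, Bool.not_not]
    · simp only [fl, if_neg h]
  have hflAv : ∀ w, ∀ u ∈ Av inv γ t, fl w u ∈ Av inv γ t := by
    intro w u hu
    rw [Av, Finset.mem_filter, Odd', Finset.mem_filter] at hu ⊢
    refine ⟨⟨Finset.mem_univ _, fun x => ?_⟩, fun a ha => ?_⟩
    · by_cases h : D w x
      · have h' := (hDinv w x).2 h
        simp only [fl, if_pos h, if_pos h', hu.1.2 x]
      · have h' := fun h2 => h ((hDinv w x).1 h2)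
        simp only [fl, if_neg h, if_neg h', hu.1.2 x]
    · obtain ⟨x, hx⟩ := hu.2 a ha
      refine ⟨x, ?_⟩
      simp only [fl, if_neg (hDb w a ha x)]
      exact hx
  have hfib : ∀ w, (fib w).card = (fib (fun _ => true)).card := by
    intro w
    refine Finset.card_nbij' (fl w) (fl w) ?_ ?_ (fun u _ => hflfl w u) (fun u _ => hflfl w u)
    · intro u hu
      rw [Finset.mem_coe, Finset.mem_filter] at hu ⊢
      refine ⟨hflAv w u hu.1, fun x => ?_⟩
      by_cases h : w x = false
      · simp only [fl, if_pos ((hDt w x).2 h), hu.2 x, h, Bool.not_false]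
      · simp only [fl, if_neg (fun h2 => h ((hDt w x).1 h2)), hu.2 x]
        simpa using h
    · intro u hu
      rw [Finset.mem_coe, Finset.mem_filter] at hu ⊢
      refine ⟨hflAv w u hu.1, fun x => ?_⟩
      by_cases h : w x = false
      · simp only [fl, if_pos ((hDt w x).2 h), hu.2 x, h, Bool.not_true]
      · simp only [fl, if_neg (fun h2 => h ((hDt w x).1 h2)), hu.2 x]
        simpa using (Bool.eq_true_of_not_eq_false h).symm
  have hsum : (Av inv γ t).card = ∑ w : S → Bool, (fib w).card := by
    rw [Finset.card_eq_sum_card_fiberwise (f := fun u => fun x => u (γ t x)) (t := univ)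
      (fun _ _ => Finset.mem_coe.2 (Finset.mem_univ _))]
    refine Finset.sum_congr rfl fun w _ => ?_
    congr 1
    ext u
    simp only [fib, Finset.mem_filter, funext_iff]
  rw [Finset.sum_congr rfl (fun w _ => hfib w), Finset.sum_const, Finset.card_univ,
    Fintype.card_fun, Fintype.card_bool, smul_eq_mul] at hsum
  have hstep : (Av inv γ (t + 1)).card + (fib (fun _ => true)).card = (Av inv γ t).card := by
    have h1 : Av inv γ (t + 1) = (Av inv γ t).filter (fun u => ¬ ∀ x, u (γ t x) = true) := by
      ext u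
      simp only [Av, Finset.mem_filter, not_forall, Bool.not_eq_true]
      constructor
      · rintro ⟨h1, h2⟩
        exact ⟨⟨h1, fun a ha => h2 a (by omega)⟩, h2 t (Nat.lt_succ_self t)⟩
      · rintro ⟨⟨h1, h2⟩, h3⟩
        refine ⟨h1, fun a ha => ?_⟩
        by_cases hat : a = t
        · rw [hat]
          exact h3
        · exact h2 a (by omega)
    rw [h1, add_comm]
    exact Finset.card_filter_add_card_filter_not _
  have hpos : 1 ≤ 2 ^ Fintype.card S := Nat.one_le_two_pow
  obtain ⟨q, hq⟩ := Nat.exists_eq_add_of_le hpos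
  rw [hq] at hsum ⊢
  have h4 : (Av inv γ (t + 1)).card = q * (fib (fun _ => true)).card := by
    have : (1 + q) * (fib (fun _ => true)).card = (fib (fun _ => true)).card +
        q * (fib (fun _ => true)).card := by ring
    omega
  rw [h4, hsum, Nat.add_sub_cancel_left]
  ring

theorem card_av {S : Type*} [Fintype S] [DecidableEq S] (inv : X → X)
    (hinv : ∀ x, inv (inv x) = x) (γ : ℕ → S → X) (hγ : ∀ a, Function.Injective (γ a))
    (hc : ∀ a x y, γ a x ≠ inv (γ a y)) (t : ℕ)
    (hd : ∀ a < t, ∀ b < a, ∀ x y, γ a x ≠ γ b y ∧ γ a x ≠ inv (γ b y)) :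
    (Av inv γ t).card * (2 ^ Fintype.card S) ^ t =
      (Odd' inv).card * (2 ^ Fintype.card S - 1) ^ t := by
  induction t with
  | zero =>
    have h : Av inv γ 0 = Odd' inv := by
      rw [Av]
      refine Finset.filter_true_of_mem fun u _ a ha => ?_
      exact absurd ha (Nat.not_lt_zero a)
    rw [h, pow_zero, pow_zero]
  | succ t ih =>
    have h1 := ih (fun a ha => hd a (by omega))
    have h2 := card_av_succ inv hinv γ hγ hc t (fun b hb x y => hd t (Nat.lt_succ_self t) b hb x y)
    calc (Av inv γ (t + 1)).card * (2 ^ Fintype.card S) ^ (t + 1)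
        = ((Av inv γ (t + 1)).card * 2 ^ Fintype.card S) * (2 ^ Fintype.card S) ^ t := by ring
      _ = ((Av inv γ t).card * (2 ^ Fintype.card S) ^ t) * (2 ^ Fintype.card S - 1) := by
          rw [h2]
          ring
      _ = (Odd' inv).card * (2 ^ Fintype.card S - 1) ^ (t + 1) := by
          rw [h1]
          ring

end indep

end Pool.Agent.TH170.GH
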