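import Mathlib
import Pool.Agent.TH170.GH.Count

/-!
# The number of sign functions that avoid all translates of some small set
-/

namespace Pool.Agent.TH170.GH

open Finset MulAction

section one

variable {G : Type*} [Group G] [Fintype G] {X : Type*} [Fintype X] [DecidableEq X] [MulAction G X]

theorem card_avoid (inv : X → X) (hinv : ∀ x, inv (inv x) = x) (hne : ∀ x, inv x ≠ x)
    (heq : ∀ (g : G) x, g • inv x = inv (g • x)) {N m : ℕ} (hN : Fintype.card X = 2 * N)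
    (hm : ∀ x : X, m ≤ Set.ncard (orbit G x)) (S : Finset X) (hS : ∀ x ∈ S, ∀ y ∈ S, x ≠ inv y)
    (t : ℕ) (ht : ∀ a < t, 2 * S.card * S.card * a < m) :
    (((Odd' inv).filter (fun u => ∀ g : G, ∃ x ∈ S, u (g • x) = false)).card : ℝ) ≤
      2 ^ N * (1 - (1 / 2) ^ S.card) ^ t := by
  classical
  obtain ⟨γ, hγ⟩ := exists_greedy inv hm S t ht
  let γ' : ℕ → S → X := fun a x => γ a • x.1
  have h1 := card_av (S := S) inv hinv γ' (fun a x y h => Subtype.ext (smul_left_cancel _ h))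
    (fun a x y h => by
      have h2 : γ a • x.1 = γ a • inv y.1 := by
        rw [heq]
        exact h
      exact hS x.1 x.2 y.1 y.2 (smul_left_cancel _ h2)) t
    (fun a ha b hb x y => hγ a ha b hb x.1 x.2 y.1 y.2)
  have h2 : ((Odd' inv).filter (fun u => ∀ g : G, ∃ x ∈ S, u (g • x) = false)).card ≤
      (Av inv γ' t).card := by
    refine Finset.card_le_card fun u hu => ?_
    rw [Finset.mem_filter] at hu
    rw [Av, Finset.mem_filter]
    refine ⟨hu.1, fun a _ => ?_⟩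
    obtain ⟨x, hx, hux⟩ := hu.2 (γ a)
    exact ⟨⟨x, hx⟩, hux⟩
  have h3 := card_odd_le inv hinv hne hN
  rw [Fintype.card_coe] at h1
  have hpos : (0 : ℝ) < (2 ^ S.card) ^ t := by positivity
  have h4 : ((Av inv γ' t).card : ℝ) * (2 ^ S.card) ^ t =
      ((Odd' inv).card : ℝ) * (2 ^ S.card - 1) ^ t := by
    have h5 : (((2 ^ S.card - 1 : ℕ) : ℕ) : ℝ) = (2 : ℝ) ^ S.card - 1 := by
      rw [Nat.cast_sub Nat.one_le_two_pow]
      push_cast
      ring
    have h6 := congrArg (fun n : ℕ => (n : ℝ)) h1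
    simp only [Nat.cast_mul, Nat.cast_pow, h5, Nat.cast_ofNat] at h6
    exact h6
  have h7 : ((1 : ℝ) - (1 / 2) ^ S.card) ^ t * (2 ^ S.card) ^ t = (2 ^ S.card - 1) ^ t := by
    rw [← mul_pow]
    congr 1
    rw [sub_mul, one_mul, ← mul_pow]
    norm_num
  have h8 : ((Av inv γ' t).card : ℝ) =
      ((Odd' inv).card : ℝ) * ((1 : ℝ) - (1 / 2) ^ S.card) ^ t := by
    have h9 : ((Av inv γ' t).card : ℝ) * (2 ^ S.card) ^ t =
        (((Odd' inv).card : ℝ) * ((1 : ℝ) - (1 / 2) ^ S.card) ^ t) * (2 ^ S.card) ^ t := by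
      rw [h4, mul_assoc, h7]
    exact mul_right_cancel₀ hpos.ne' h9
  have hnn : (0 : ℝ) ≤ (1 : ℝ) - (1 / 2) ^ S.card := by
    have : ((1 : ℝ) / 2) ^ S.card ≤ 1 := pow_le_one₀ (by norm_num) (by norm_num)
    linarith
  calc (((Odd' inv).filter (fun u => ∀ g : G, ∃ x ∈ S, u (g • x) = false)).card : ℝ)
      ≤ ((Av inv γ' t).card : ℝ) := by exact_mod_cast h2
    _ = ((Odd' inv).card : ℝ) * ((1 : ℝ) - (1 / 2) ^ S.card) ^ t := h8
    _ ≤ 2 ^ N * (1 - (1 / 2) ^ S.card) ^ t := by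
        refine mul_le_mul_of_nonneg_right ?_ (pow_nonneg hnn _)
        exact_mod_cast h3

/-- with the largest admissible number of translates -/
theorem card_avoid_rpow (inv : X → X) (hinv : ∀ x, inv (inv x) = x) (hne : ∀ x, inv x ≠ x)
    (heq : ∀ (g : G) x, g • inv x = inv (g • x)) {N g₀ : ℕ} (hN : Fintype.card X = 2 * N)
    (hm : ∀ x : X, 2 * g₀ ≤ Set.ncard (orbit G x)) (S : Finset X)
    (hS : ∀ x ∈ S, ∀ y ∈ S, x ≠ inv y) (hne' : S.Nonempty) {s : ℕ} (hs : S.card ≤ s) :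
    (((Odd' inv).filter (fun u => ∀ g : G, ∃ x ∈ S, u (g • x) = false)).card : ℝ) ≤
      2 ^ N * (1 - (1 / 2) ^ s) ^ ((g₀ : ℝ) / (s : ℝ) ^ 2) := by
  have hk : 0 < S.card := hne'.card_pos
  have hkr : (0 : ℝ) < (S.card : ℝ) := by exact_mod_cast hk
  have hsr : (0 : ℝ) < (s : ℝ) := by exact_mod_cast (lt_of_lt_of_le hk hs)
  set t : ℕ := ⌈(g₀ : ℝ) / (S.card : ℝ) ^ 2⌉₊ with htdef
  have ht : ∀ a < t, 2 * S.card * S.card * a < 2 * g₀ := by
    intro a ha
    have h1 : (a : ℝ) < (g₀ : ℝ) / (S.card : ℝ) ^ 2 := Nat.lt_ceil.1 ha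
    rw [lt_div_iff₀ (by positivity)] at h1
    have h2 : ((2 * S.card * S.card * a : ℕ) : ℝ) < ((2 * g₀ : ℕ) : ℝ) := by
      push_cast
      nlinarith
    exact_mod_cast h2
  refine (card_avoid inv hinv hne heq hN hm S hS t ht).trans ?_
  refine mul_le_mul_of_nonneg_left ?_ (by positivity)
  have hx1 : ((1 : ℝ) / 2) ^ S.card ≤ 1 / 2 := by
    calc ((1 : ℝ) / 2) ^ S.card ≤ (1 / 2) ^ 1 :=
          pow_le_pow_of_le_one (by norm_num) (by norm_num) hk
      _ = 1 / 2 := pow_one _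
  have hx2 : ((1 : ℝ) / 2) ^ s ≤ (1 / 2) ^ S.card :=
    pow_le_pow_of_le_one (by norm_num) (by norm_num) hs
  have hy : (0 : ℝ) < 1 - (1 / 2) ^ S.card := by linarith
  have hy' : (0 : ℝ) ≤ ((1 : ℝ) / 2) ^ S.card := by positivity
  have hy2 : (0 : ℝ) ≤ ((1 : ℝ) / 2) ^ s := by positivity
  calc ((1 : ℝ) - (1 / 2) ^ S.card) ^ t = ((1 : ℝ) - (1 / 2) ^ S.card) ^ (t : ℝ) := by
        rw [Real.rpow_natCast]
    _ ≤ ((1 : ℝ) - (1 / 2) ^ S.card) ^ ((g₀ : ℝ) / (s : ℝ) ^ 2) := by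
        refine Real.rpow_le_rpow_of_exponent_ge hy (by linarith) ?_
        refine le_trans ?_ (Nat.le_ceil _)
        refine div_le_div_of_nonneg_left (Nat.cast_nonneg _) (by positivity) ?_
        have : (S.card : ℝ) ≤ (s : ℝ) := by exact_mod_cast hs
        exact pow_le_pow_left₀ hkr.le this 2
    _ ≤ ((1 : ℝ) - (1 / 2) ^ s) ^ ((g₀ : ℝ) / (s : ℝ) ^ 2) := by
        refine Real.rpow_le_rpow hy.le (by linarith) ?_
        positivity

end one

section all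

variable {G : Type*} [Group G] [Fintype G] {X : Type*} [Fintype X] [DecidableEq X] [MulAction G X]

/-- the number of subsets of size at most `s` -/
theorem card_small (s : ℕ) :
    ((univ : Finset (Finset X)).filter (fun S => S.card ≤ s)).card ≤ (Fintype.card X + 1) ^ s := by
  classical
  have h1 : (univ : Finset (Finset X)).filter (fun S => S.card ≤ s) ⊆
      (univ : Finset (Fin s → Option X)).image
        (fun f => univ.filter (fun x => ∃ k, f k = some x)) := by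
    intro S hS
    rw [Finset.mem_filter] at hS
    rw [Finset.mem_image]
    let e := S.equivFin
    refine ⟨fun k => if h : k.1 < S.card then some (e.symm ⟨k.1, h⟩).1 else none,
      Finset.mem_univ _, ?_⟩
    ext x
    rw [Finset.mem_filter]
    constructor
    · rintro ⟨-, k, hk⟩
      by_cases h : k.1 < S.card
      · simp only [dif_pos h] at hk
        rw [← Option.some.inj hk]
        exact (e.symm ⟨k.1, h⟩).2
      · simp only [dif_neg h] at hk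
        exact absurd hk (by simp)
    · intro hx
      refine ⟨Finset.mem_univ _, ⟨(e ⟨x, hx⟩).1, lt_of_lt_of_le (e ⟨x, hx⟩).2 hS.2⟩, ?_⟩
      simp only [dif_pos (e ⟨x, hx⟩).2]
      simp
  refine (Finset.card_le_card h1).trans (Finset.card_image_le.trans ?_)
  rw [Finset.card_univ, Fintype.card_fun, Fintype.card_option, Fintype.card_fin]

theorem card_avoid_all (inv : X → X) (hinv : ∀ x, inv (inv x) = x) (hne : ∀ x, inv x ≠ x)
    (heq : ∀ (g : G) x, g • inv x = inv (g • x)) {N g₀ : ℕ} (hN : Fintype.card X = 2 * N)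
    (hm : ∀ x : X, 2 * g₀ ≤ Set.ncard (orbit G x)) (s : ℕ) :
    (((Odd' inv).filter (fun u => ∃ S : Finset X, S.Nonempty ∧ S.card ≤ s ∧
      (∀ x ∈ S, ∀ y ∈ S, x ≠ inv y) ∧ ∀ g : G, ∃ x ∈ S, u (g • x) = false)).card : ℝ) ≤
      2 ^ N * ((2 * N + 1) ^ s * (1 - (1 / 2) ^ s) ^ ((g₀ : ℝ) / (s : ℝ) ^ 2)) := by
  classical
  set 𝒮 : Finset (Finset X) := (univ : Finset (Finset X)).filter (fun S => S.card ≤ s) with h𝒮
  set 𝒯 : Finset (Finset X) := 𝒮.filter (fun S => S.Nonempty ∧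
    (∀ x ∈ S, ∀ y ∈ S, x ≠ inv y)) with h𝒯
  have h1 : (Odd' inv).filter (fun u => ∃ S : Finset X, S.Nonempty ∧ S.card ≤ s ∧
      (∀ x ∈ S, ∀ y ∈ S, x ≠ inv y) ∧ ∀ g : G, ∃ x ∈ S, u (g • x) = false) ⊆
      𝒯.biUnion (fun S => (Odd' inv).filter (fun u => ∀ g : G, ∃ x ∈ S, u (g • x) = false)) := by
    intro u hu
    rw [Finset.mem_filter] at hu
    obtain ⟨hu1, S, hS1, hS2, hS3, hS4⟩ := hu
    rw [Finset.mem_biUnion]
    refine ⟨S, ?_, ?_⟩
    · rw [h𝒯, Finset.mem_filter, h𝒮, Finset.mem_filter]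
      exact ⟨⟨Finset.mem_univ _, hS2⟩, hS1, hS3⟩
    · rw [Finset.mem_filter]
      exact ⟨hu1, hS4⟩
  have hbase : (0 : ℝ) ≤ (1 - (1 / 2) ^ s) := by
    have : ((1 : ℝ) / 2) ^ s ≤ 1 := pow_le_one₀ (by norm_num) (by norm_num)
    linarith
  have h2 : (((𝒯.biUnion (fun S => (Odd' inv).filter
      (fun u => ∀ g : G, ∃ x ∈ S, u (g • x) = false))).card : ℕ) : ℝ) ≤
      ∑ S ∈ 𝒯, 2 ^ N * (1 - (1 / 2) ^ s) ^ ((g₀ : ℝ) / (s : ℝ) ^ 2) := by
    refine (Nat.cast_le.2 Finset.card_biUnion_le).trans ?_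
    rw [Nat.cast_sum]
    refine Finset.sum_le_sum fun S hS => ?_
    rw [h𝒯, Finset.mem_filter, h𝒮, Finset.mem_filter] at hS
    exact card_avoid_rpow inv hinv hne heq hN hm S hS.2.2 hS.2.1 hS.1.2
  have h3 : (𝒯.card : ℝ) ≤ (2 * N + 1) ^ s := by
    have h4 : 𝒯.card ≤ (Fintype.card X + 1) ^ s :=
      (Finset.card_le_card (Finset.filter_subset _ _)).trans (card_small s)
    rw [hN] at h4
    exact_mod_cast h4
  rw [Finset.sum_const, nsmul_eq_mul] at h2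
  calc _ ≤ (((𝒯.biUnion (fun S => (Odd' inv).filter
      (fun u => ∀ g : G, ∃ x ∈ S, u (g • x) = false))).card : ℕ) : ℝ) := by
        exact_mod_cast Finset.card_le_card h1
    _ ≤ 𝒯.card * (2 ^ N * (1 - (1 / 2) ^ s) ^ ((g₀ : ℝ) / (s : ℝ) ^ 2)) := h2
    _ ≤ (2 * N + 1) ^ s * (2 ^ N * (1 - (1 / 2) ^ s) ^ ((g₀ : ℝ) / (s : ℝ) ^ 2)) := by
        refine mul_le_mul_of_nonneg_right h3 ?_
        exact mul_nonneg (by positivity) (Real.rpow_nonneg hbase _)
    _ = _ := by ring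

theorem ncard_avoid_all (inv : X → X) (hinv : ∀ x, inv (inv x) = x) (hne : ∀ x, inv x ≠ x)
    (heq : ∀ (g : G) x, g • inv x = inv (g • x)) {N g₀ : ℕ} (hN : Fintype.card X = 2 * N)
    (hm : ∀ x : X, 2 * g₀ ≤ Set.ncard (orbit G x)) (s : ℕ) :
    (({u : X → Bool | (∀ x, u (inv x) = ! u x) ∧ ∃ S : Finset X, S.Nonempty ∧ S.card ≤ s ∧
      (∀ x ∈ S, ∀ y ∈ S, x ≠ inv y) ∧ ∀ g : G, ∃ x ∈ S, u (g • x) = false}.ncard : ℕ) : ℝ) ≤
      2 ^ N * ((2 * N + 1) ^ s * (1 - (1 / 2) ^ s) ^ ((g₀ : ℝ) / (s : ℝ) ^ 2)) := by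
  classical
  refine le_trans ?_ (card_avoid_all inv hinv hne heq hN hm s)
  rw [← Set.ncard_coe_finset]
  refine Nat.cast_le.2 (Set.ncard_le_ncard ?_ (Finset.finite_toSet _))
  intro u hu
  rw [Finset.mem_coe, Finset.mem_filter, Odd', Finset.mem_filter]
  exact ⟨⟨Finset.mem_univ _, hu.1⟩, hu.2⟩

end all

end Pool.Agent.TH170.GH
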