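import Mathlib
import Pool.Agent.TH170.GH.Union
import Pool.Agent.W546.GHC.Conv

/-!
# The number of families of CM types for which small sets of embeddings do not occur
-/

namespace Pool.Agent.TH170.GH

open NumberField Pool.Agent.H204R3.CM Pool.Agent.W546.GHC Finset

noncomputable section

variable {ι : Type*} [Fintype ι] {E : ι → Type*} [∀ i, Field (E i)] [∀ i, NumberField (E i)]
  [∀ i, IsCMField (E i)]

/-- the number of embeddings -/
theorem card_emb {F : Type*} [Field F] [NumberField F] {L : Type*} [Field L] [NumberField L]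
    (jj : L →+* ℂ) (h : ∀ ψ : F →+* ℂ, ∃ φ : F →+* L, jj.comp φ = ψ) :
    Fintype.card (F →+* L) = Module.finrank ℚ F := by
  rw [← Embeddings.card F ℂ]
  refine Fintype.card_of_bijective (f := fun φ : F →+* L => jj.comp φ) ⟨?_, h⟩
  intro φ ψ hh
  ext x
  exact jj.injective (RingHom.congr_fun hh x)

theorem ncard_bad_aux {L : Type*} [Field L] [NumberField L] [IsGalois ℚ L] (jj : L →+* ℂ)
    (h : ∀ i, ∀ ψ : E i →+* ℂ, ∃ φ : E i →+* L, jj.comp φ = ψ) (g N s : ℕ)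
    (hg : ∀ i, 2 * g ≤ Module.finrank ℚ (E i)) (hN : ∑ i, Module.finrank ℚ (E i) = 2 * N) :
    ((({Φ : ∀ i, Set (E i →+* ℂ) | (∀ i, IsCMType (Φ i)) ∧ ¬ SmallSetsOccur Φ s}).ncard : ℕ) : ℝ) ≤
      2 ^ N * ((2 * N + 1) ^ s * (1 - (1 / 2) ^ s) ^ ((g : ℝ) / (s : ℝ) ^ 2)) := by
  classical
  let inv : (Σ i, (E i →+* L)) → Σ i, (E i →+* L) := fun y => ⟨y.1, cbar y.2⟩
  have hinv : ∀ x, inv (inv x) = x := by
    rintro ⟨i, φ⟩
    simp only [inv, cbar_cbar]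
  have hne : ∀ x, inv x ≠ x := by
    rintro ⟨i, φ⟩ hy
    simp only [inv, Sigma.mk.injEq, heq_eq_eq, true_and] at hy
    exact cbar_ne φ hy
  have heq : ∀ (g : L ≃ₐ[ℚ] L) x, g • inv x = inv (g • x) := by
    rintro g ⟨i, φ⟩
    rfl
  have hX : Fintype.card (Σ i, (E i →+* L)) = 2 * N := by
    rw [Fintype.card_sigma, ← hN]
    exact Finset.sum_congr rfl fun i _ => card_emb jj (h i)
  have hm : ∀ x : Σ i, (E i →+* L), 2 * g ≤ Set.ncard (MulAction.orbit (L ≃ₐ[ℚ] L) x) := by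
    rintro ⟨i, φ⟩
    have h1 : Set.range (fun ψ : E i →+* L => (⟨i, ψ⟩ : Σ i, (E i →+* L))) ⊆
        MulAction.orbit (L ≃ₐ[ℚ] L) (⟨i, φ⟩ : Σ i, (E i →+* L)) := by
      rintro _ ⟨ψ, rfl⟩
      obtain ⟨σ, hσ⟩ := MulAction.exists_smul_eq (L ≃ₐ[ℚ] L) φ ψ
      exact ⟨σ, by
        change (⟨i, σ • φ⟩ : Σ i, (E i →+* L)) = ⟨i, ψ⟩
        rw [hσ]⟩
    refine le_trans ?_ (Set.ncard_le_ncard h1 (Set.toFinite _))
    rw [Set.ncard_range_of_injective (fun ψ ψ' hh => by simpa using hh), Nat.card_eq_fintype_card,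
      card_emb jj (h i)]
    exact hg i
  have hmain := ncard_avoid_all inv hinv hne heq hX hm s
  refine le_trans ?_ hmain
  rw [Nat.cast_le]
  let toC : (Σ i, (E i →+* L)) → Σ i, (E i →+* ℂ) := fun y => ⟨y.1, jj.comp y.2⟩
  have htoC : ∀ y y' : Σ i, (E i →+* L), toC y = toC y' → y = y' := by
    rintro ⟨i, φ⟩ ⟨i', φ'⟩ h
    simp only [toC, Sigma.mk.injEq] at h
    obtain ⟨rfl, h⟩ := h
    have h' := eq_of_heq h
    have h2 : φ = φ' := by
      ext x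
      exact jj.injective (RingHom.congr_fun h' x)
    rw [h2]
  have hsurj : ∀ z, ∃ y, toC y = z := by
    rintro ⟨i, ψ⟩
    obtain ⟨φ, hφ⟩ := h i ψ
    exact ⟨⟨i, φ⟩, by simp only [toC, hφ]⟩
  have hconj : ∀ y : Σ i, (E i →+* L),
      (⟨(toC y).1, ComplexEmbedding.conjugate (toC y).2⟩ : Σ i, (E i →+* ℂ)) = toC (inv y) := by
    rintro ⟨i, φ⟩
    simp only [toC, inv, comp_cbar]
  -- the sign function of a family of sets
  let u : (∀ i, Set (E i →+* ℂ)) → (Σ i, (E i →+* L)) → Bool := fun Φ y => decide ((toC y).2 ∈ Φ (toC y).1)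
  have hu : ∀ Φ y, u Φ y = true ↔ (toC y).2 ∈ Φ (toC y).1 := fun Φ y => decide_eq_true_iff
  have hu' : ∀ Φ y, u Φ y = false ↔ ¬ (toC y).2 ∈ Φ (toC y).1 := fun Φ y => decide_eq_false_iff_not
  have huinj : Function.Injective u := by
    intro Φ Ψ hh
    funext i
    ext ψ
    obtain ⟨y, hy⟩ := hsurj ⟨i, ψ⟩
    have h1 : u Φ y = true ↔ u Ψ y = true := by rw [hh]
    rw [hu, hu, hy] at h1
    exact h1
  refine Set.ncard_le_ncard_of_injOn u ?_ huinj.injOn (Set.toFinite _)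
  rintro Φ ⟨hΦ, hbad⟩
  have hodd : ∀ x, u Φ (inv x) = ! u Φ x := by
    intro x
    have h1 := hΦ (toC x).1 (toC x).2
    have h2 : u Φ (inv x) = true ↔ ComplexEmbedding.conjugate (toC x).2 ∈ Φ (toC x).1 := by
      rw [hu, ← hconj]
    by_cases h3 : (toC x).2 ∈ Φ (toC x).1
    · rw [(hu Φ x).2 h3, Bool.not_true]
      by_contra h4
      rw [Bool.not_eq_false, h2] at h4
      exact (h1.1 h3) h4
    · rw [(hu' Φ x).2 h3, Bool.not_false, h2]
      by_contra h4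
      exact h3 (h1.2 h4)
  refine ⟨hodd, ?_⟩
  unfold SmallSetsOccur at hbad
  push Not at hbad
  obtain ⟨Y, hY1, hY2, hY3⟩ := hbad
  let S : Finset (Σ i, (E i →+* L)) := univ.filter (fun y => toC y ∈ Y)
  have hSY : (Finset.card S : ℕ∞) ≤ s := by
    have h1 : ((S : Set (Σ i, (E i →+* L)))).encard ≤ Y.encard := by
      refine Set.encard_le_encard_of_injOn (f := toC) ?_ (fun y _ y' _ => htoC y y')
      intro y hy
      exact (Finset.mem_filter.1 (Finset.mem_coe.1 hy)).2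
    rw [Set.encard_coe_eq_coe_finsetCard] at h1
    exact h1.trans hY1
  refine ⟨S, ?_, by exact_mod_cast hSY, ?_, ?_⟩
  · obtain ⟨x, hx, -⟩ := hY3 (RingEquiv.refl ℂ)
    obtain ⟨y, hy⟩ := hsurj x
    exact ⟨y, Finset.mem_filter.2 ⟨Finset.mem_univ _, by rw [hy]; exact hx⟩⟩
  · intro x hx y hy hxy
    have hx' := (Finset.mem_filter.1 hx).2
    have hy' := (Finset.mem_filter.1 hy).2
    apply hY2 _ hy'
    rw [hconj, ← hxy]
    exact hx'
  · intro g
    obtain ⟨σ, hσ⟩ := Pool.Agent.H977R3.CM.exists_aut jj (g : L ≃+* L)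
    obtain ⟨x, hx, hxn⟩ := hY3 σ
    obtain ⟨y, hy⟩ := hsurj x
    refine ⟨y, Finset.mem_filter.2 ⟨Finset.mem_univ _, by rw [hy]; exact hx⟩, ?_⟩
    rw [hu']
    subst hy
    have h1 : (toC (g • y)).2 = (σ : ℂ →+* ℂ).comp (toC y).2 := by
      ext x
      exact (hσ _).symm
    rw [h1]
    exact hxn

/-- For all but few families of CM types all small half-free sets of embeddings occur. -/
theorem ncard_bad (E : ι → Type*) [∀ i, Field (E i)] [∀ i, NumberField (E i)]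
    [∀ i, IsCMField (E i)] (g N s : ℕ)
    (hg : ∀ i, 2 * g ≤ Module.finrank ℚ (E i)) (hN : ∑ i, Module.finrank ℚ (E i) = 2 * N) :
    ((({Φ : ∀ i, Set (E i →+* ℂ) | (∀ i, IsCMType (Φ i)) ∧ ¬ SmallSetsOccur Φ s}).ncard : ℕ) : ℝ) ≤
      2 ^ N * ((2 * N + 1) ^ s * (1 - (1 / 2) ^ s) ^ ((g : ℝ) / (s : ℝ) ^ 2)) := by
  obtain ⟨L, _, _, jj, h⟩ := exists_galois E
  exact ncard_bad_aux jj h g N s hg hN

end

end Pool.Agent.TH170.GH
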