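import Mathlib
import Pool.Agent.TH170.GH.Types

/-!
# Small sets of embeddings and the number of conjugates of the CM types
-/

namespace Pool.Agent.TH170.GH

open NumberField Pool.Agent.H204R3.CM Pool.Agent.W546.GHC Finset

noncomputable section

/-- The conjugates of a family of sets of embeddings under the automorphisms of `ℂ`. -/
def Conjugates {ι : Type*} {E : ι → Type*} [∀ i, Field (E i)] (Φ : ∀ i, Set (E i →+* ℂ)) :
    Set (∀ i, Set (E i →+* ℂ)) :=
  Set.range fun σ : ℂ ≃+* ℂ => fun i => {φ : E i →+* ℂ | (σ : ℂ →+* ℂ).comp φ ∈ Φ i}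

theorem conj_conj {F : Type*} [Field F] (ψ : F →+* ℂ) :
    ComplexEmbedding.conjugate (ComplexEmbedding.conjugate ψ) = ψ := by
  ext x
  simp

theorem conjugate_ne {F : Type*} [Field F] [NumberField F] [IsCMField F] (ψ : F →+* ℂ) :
    ComplexEmbedding.conjugate ψ ≠ ψ := by
  have h : ComplexEmbedding.conjugate ψ = cbar ψ := by
    have h1 := comp_cbar (τ := RingHom.id ℂ) (φ := ψ)
    rw [RingHom.id_comp, RingHom.id_comp] at h1
    exact h1.symm
  rw [h]
  exact cbar_ne ψ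

variable {ι : Type*} [Fintype ι] {E : ι → Type*} [∀ i, Field (E i)] [∀ i, NumberField (E i)]
  [∀ i, IsCMField (E i)]

omit [Fintype ι] in
theorem comp_conj_mem {Φ : ∀ i, Set (E i →+* ℂ)} (hΦ : ∀ i, IsCMType (Φ i)) {s : ℕ}
    (h : SmallSetsOccur Φ s) (S : Finset (Σ i, (E i →+* ℂ))) (hS : S.card ≤ s)
    (hfree : ∀ x ∈ S, ∀ y ∈ S,
      x ≠ (⟨y.1, ComplexEmbedding.conjugate y.2⟩ : Σ i, (E i →+* ℂ))) (w : S → Bool) :
    ∃ σ : ℂ ≃+* ℂ, ∀ x : S, (σ : ℂ →+* ℂ).comp x.1.2 ∈ Φ x.1.1 ↔ w x = true := by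
  classical
  let inv : (Σ i, (E i →+* ℂ)) → Σ i, (E i →+* ℂ) :=
    fun y => ⟨y.1, ComplexEmbedding.conjugate y.2⟩
  have hinv : ∀ x, inv (inv x) = x := by
    rintro ⟨i, φ⟩
    simp only [inv, conj_conj]
  let f : S → Σ i, (E i →+* ℂ) := fun x => if w x = true then x.1 else inv x.1
  obtain ⟨σ, hσ⟩ := h (Set.range f) (by
      rw [← Set.image_univ]
      refine (Set.encard_image_le _ _).trans ?_
      rw [Set.encard_univ, ENat.card_eq_coe_fintype_card, Fintype.card_coe]
      exact_mod_cast hS) (by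
      rintro _ ⟨x, rfl⟩ ⟨y, hy⟩
      change f y = inv (f x) at hy
      have hsym : ∀ a b : S, a.1 ≠ inv b.1 := fun a b => hfree a.1 a.2 b.1 b.2
      by_cases hx : w x = true
      · by_cases hy' : w y = true
        · simp only [f, if_pos hx, if_pos hy'] at hy
          exact hsym y x hy
        · simp only [f, if_pos hx, if_neg hy'] at hy
          have h1 : y.1 = x.1 := by
            rw [← hinv y.1, hy, hinv]
          rw [Subtype.ext h1] at hy'
          exact hy' hx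
      · by_cases hy' : w y = true
        · simp only [f, if_neg hx, if_pos hy', hinv] at hy
          rw [← Subtype.ext hy] at hx
          exact hx hy'
        · simp only [f, if_neg hx, if_neg hy', hinv] at hy
          exact hsym x y hy.symm)
  refine ⟨σ, fun x => ?_⟩
  have h1 := hσ (f x) ⟨x, rfl⟩
  by_cases hx : w x = true
  · have hf : f x = x.1 := if_pos hx
    rw [hf] at h1
    exact ⟨fun _ => hx, fun _ => h1⟩
  · have hf : f x = inv x.1 := if_neg hx
    rw [hf] at h1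
    constructor
    · intro h2
      exfalso
      have h3 : (σ : ℂ →+* ℂ).comp (ComplexEmbedding.conjugate x.1.2) ∈ Φ x.1.1 := h1
      -- conjugation commutes with the automorphism on the embeddings of a CM field
      have h4 : ComplexEmbedding.conjugate x.1.2 = cbar x.1.2 := by
        have h5 := comp_cbar (τ := RingHom.id ℂ) (φ := x.1.2)
        rw [RingHom.id_comp, RingHom.id_comp] at h5
        exact h5.symm
      rw [h4, comp_cbar] at h3
      exact ((hΦ x.1.1 _).1 h2) h3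
    · intro h2
      exact absurd h2 hx

/-- If all half-free sets of at most `s` embeddings occur, then there are at least `2 ^ s`
conjugates. -/
theorem two_pow_le {Φ : ∀ i, Set (E i →+* ℂ)} (hΦ : ∀ i, IsCMType (Φ i)) {s N : ℕ}
    (hN : ∑ i, Module.finrank ℚ (E i) = 2 * N) (hs : s ≤ N) (h : SmallSetsOccur Φ s) :
    2 ^ s ≤ (Conjugates Φ).ncard := by
  classical
  let inv : (Σ i, (E i →+* ℂ)) → Σ i, (E i →+* ℂ) :=
    fun y => ⟨y.1, ComplexEmbedding.conjugate y.2⟩
  have hinv : ∀ x, inv (inv x) = x := by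
    rintro ⟨i, φ⟩
    simp only [inv, conj_conj]
  have hne : ∀ x, inv x ≠ x := by
    rintro ⟨i, φ⟩ hy
    simp only [inv, Sigma.mk.injEq, heq_eq_eq, true_and] at hy
    exact conjugate_ne φ hy
  have hX : Fintype.card (Σ i, (E i →+* ℂ)) = 2 * N := by
    rw [Fintype.card_sigma, ← hN]
    exact Finset.sum_congr rfl fun i _ => Embeddings.card (E i) ℂ
  obtain ⟨H, hH, hHN⟩ := exists_half inv hinv hne hX
  obtain ⟨S, hSH, hSs⟩ := Finset.exists_subset_card_eq (s := H) (n := s) (by rw [hHN]; exact hs)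
  have hfree : ∀ x ∈ S, ∀ y ∈ S,
      x ≠ (⟨y.1, ComplexEmbedding.conjugate y.2⟩ : Σ i, (E i →+* ℂ)) := by
    intro x hx y hy hxy
    have h1 : inv y ∈ H := by
      change (⟨y.1, ComplexEmbedding.conjugate y.2⟩ : Σ i, (E i →+* ℂ)) ∈ H
      rw [← hxy]
      exact hSH hx
    exact (hH y).2 h1 (hSH hy)
  choose σ hσ using comp_conj_mem hΦ h S hSs.le hfree
  have hfin : (Conjugates Φ).Finite := Set.toFinite _
  have h1 : (Set.range fun w : S → Bool =>
      (fun i => {φ : E i →+* ℂ | (σ w : ℂ →+* ℂ).comp φ ∈ Φ i})).ncard ≤ (Conjugates Φ).ncard := by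
    refine Set.ncard_le_ncard ?_ hfin
    rintro _ ⟨w, rfl⟩
    exact ⟨σ w, rfl⟩
  rw [Set.ncard_range_of_injective, Nat.card_eq_fintype_card, Fintype.card_fun, Fintype.card_bool,
    Fintype.card_coe, hSs] at h1
  · exact h1
  · intro w w' hw
    funext x
    have h2 : x.1.2 ∈ {φ : E x.1.1 →+* ℂ | (σ w : ℂ →+* ℂ).comp φ ∈ Φ x.1.1} ↔
        x.1.2 ∈ {φ : E x.1.1 →+* ℂ | (σ w' : ℂ →+* ℂ).comp φ ∈ Φ x.1.1} := by
      have h3 := congrFun hw x.1.1
      simp only at h3
      rw [h3]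
    have h4 := (hσ w x).symm.trans (h2.trans (hσ w' x))
    exact Bool.eq_iff_iff.2 h4

omit [Fintype ι] [∀ i, IsCMField (E i)] in
/-- A Galois field has at most as many conjugate types as its degree. -/
theorem ncard_conjugates_le {F : Type*} [Field F] [NumberField F] [IsGalois ℚ F]
    (Φ : Unit → Set (F →+* ℂ)) :
    (Conjugates (E := fun _ : Unit => F) Φ).ncard ≤ Module.finrank ℚ F := by
  classical
  rw [← Embeddings.card F ℂ, ← Nat.card_eq_fintype_card]
  obtain ⟨φ₀⟩ : Nonempty (F →+* ℂ) := inferInstance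
  have hF : Finite (F →+* ℂ) := inferInstance
  -- the conjugate type is a function of the image of `φ₀`
  have hfac : ∀ φ : F →+* ℂ, ∃ τ : F ≃ₐ[ℚ] F, φ = φ₀.comp (τ : F →+* F) := by
    intro φ
    obtain ⟨τ, hτ⟩ := ComplexEmbedding.exists_comp_symm_eq_of_comp_eq (k := ℚ) φ₀ φ
      (Subsingleton.elim _ _)
    exact ⟨τ.symm, hτ.symm⟩
  let K : (F →+* ℂ) → Unit → Set (F →+* ℂ) := fun ψ u =>
    {φ | ∃ σ : ℂ ≃+* ℂ, (σ : ℂ →+* ℂ).comp φ₀ = ψ ∧ (σ : ℂ →+* ℂ).comp φ ∈ Φ u}
  have hsub : Conjugates (E := fun _ : Unit => F) Φ ⊆ Set.range K := by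
    rintro _ ⟨σ₀, rfl⟩
    refine ⟨(σ₀ : ℂ →+* ℂ).comp φ₀, ?_⟩
    funext u
    ext φ
    constructor
    · rintro ⟨σ, h1, h2⟩
      obtain ⟨τ, rfl⟩ := hfac φ
      change (σ₀ : ℂ →+* ℂ).comp (φ₀.comp (τ : F →+* F)) ∈ Φ u
      rw [← RingHom.comp_assoc, ← h1, RingHom.comp_assoc]
      exact h2
    · intro h1
      exact ⟨σ₀, rfl, h1⟩
  calc (Conjugates (E := fun _ : Unit => F) Φ).ncard ≤ (Set.range K).ncard :=
        Set.ncard_le_ncard hsub (Set.finite_range K)
    _ ≤ Nat.card (F →+* ℂ) := by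
        rw [← Set.image_univ]
        refine (Set.ncard_image_le (Set.toFinite _)).trans ?_
        rw [Set.ncard_univ]

end

end Pool.Agent.TH170.GH
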