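import Mathlib
import Pool.Agent.TH170.GH.Sharp

/-!
# The number of families of CM types
-/

namespace Pool.Agent.TH170.GH

open NumberField Pool.Agent.H204R3.CM Pool.Agent.W546.GHC Finset

theorem ncard_odd {X : Type*} [Fintype X] [DecidableEq X] (inv : X → X)
    (hinv : ∀ x, inv (inv x) = x) (hne : ∀ x, inv x ≠ x) {N : ℕ}
    (hN : Fintype.card X = 2 * N) : {u : X → Bool | ∀ x, u (inv x) = ! u x}.ncard = 2 ^ N := by
  classical
  obtain ⟨H, hH, hcard⟩ := exists_half inv hinv hne hN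
  let ext : (H → Bool) → X → Bool := fun f x =>
    if h : x ∈ H then f ⟨x, h⟩ else ! f ⟨inv x, (hH x).1 h⟩
  have hext1 : ∀ f (x : X) (h : x ∈ H), ext f x = f ⟨x, h⟩ := fun f x h => dif_pos h
  have hext2 : ∀ f (x : X) (h : x ∉ H), ext f x = ! f ⟨inv x, (hH x).1 h⟩ := fun f x h => dif_neg h
  have himg : {u : X → Bool | ∀ x, u (inv x) = ! u x} = Set.range ext := by
    ext u
    constructor
    · intro hu
      refine ⟨fun x => u x.1, ?_⟩
      funext x
      by_cases hx : x ∈ H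
      · exact hext1 (fun x => u x.1) x hx
      · refine (hext2 (fun x => u x.1) x hx).trans ?_
        change (! u (inv x)) = u x
        rw [hu x, Bool.not_not]
    · rintro ⟨f, rfl⟩ x
      by_cases hx : x ∈ H
      · have hx' : inv x ∉ H := by
          rw [hH, hinv]
          exact hx
        rw [hext1 f x hx, hext2 f (inv x) hx']
        congr 2
        exact Subtype.ext (hinv x)
      · have hx' := (hH x).1 hx
        rw [hext2 f x hx, hext1 f (inv x) hx', Bool.not_not]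
  rw [himg, Set.ncard_range_of_injective, Nat.card_eq_fintype_card, Fintype.card_fun,
    Fintype.card_bool, Fintype.card_coe, hcard]
  intro f f' hff
  funext x
  have h := congrFun hff x.1
  rw [hext1 f x.1 x.2, hext1 f' x.1 x.2] at h
  exact h

/-- The number of families of CM types. -/
theorem ncard_types {ι : Type*} [Fintype ι] (E : ι → Type*) [∀ i, Field (E i)]
    [∀ i, NumberField (E i)] [∀ i, IsCMField (E i)] (N : ℕ)
    (hN : ∑ i, Module.finrank ℚ (E i) = 2 * N) :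
    {Φ : ∀ i, Set (E i →+* ℂ) | ∀ i, IsCMType (Φ i)}.ncard = 2 ^ N := by
  classical
  let inv : (Σ i, (E i →+* ℂ)) → Σ i, (E i →+* ℂ) :=
    fun y => ⟨y.1, ComplexEmbedding.conjugate y.2⟩
  have hinv : ∀ x, inv (inv x) = x := by
    rintro ⟨i, φ⟩
    simp only [inv, conj_conj]
  have hne : ∀ x, inv x ≠ x := by
    rintro ⟨i, φ⟩ hy
    simp only [inv, Sigma.mk.injEq, heq_eq_eq, true_and] at hy
    exact conjugate_ne φ hy
  have hX : Fintype.card (Σ i, (E i →+* ℂ)) = 2 * N := by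
    rw [Fintype.card_sigma, ← hN]
    exact Finset.sum_congr rfl fun i _ => Embeddings.card (E i) ℂ
  rw [← ncard_odd inv hinv hne hX]
  let u : (∀ i, Set (E i →+* ℂ)) → (Σ i, (E i →+* ℂ)) → Bool := fun Φ y => decide (y.2 ∈ Φ y.1)
  have hu : ∀ Φ y, u Φ y = true ↔ y.2 ∈ Φ y.1 := fun Φ y => decide_eq_true_iff
  have hu' : ∀ Φ y, u Φ y = false ↔ ¬ y.2 ∈ Φ y.1 := fun Φ y => decide_eq_false_iff_not
  have huinj : Function.Injective u := by
    intro Φ Ψ hh
    funext i
    ext ψ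
    have h1 : u Φ ⟨i, ψ⟩ = true ↔ u Ψ ⟨i, ψ⟩ = true := by rw [hh]
    rw [hu, hu] at h1
    exact h1
  rw [← Set.ncard_image_of_injective _ huinj]
  congr 1
  ext v
  constructor
  · rintro ⟨Φ, hΦ, rfl⟩ x
    have h1 := hΦ x.1 x.2
    have h2 : u Φ (inv x) = true ↔ ComplexEmbedding.conjugate x.2 ∈ Φ x.1 := hu Φ (inv x)
    by_cases h3 : x.2 ∈ Φ x.1
    · rw [(hu Φ x).2 h3, Bool.not_true]
      by_contra h4
      rw [Bool.not_eq_false, h2] at h4
      exact (h1.1 h3) h4
    · rw [(hu' Φ x).2 h3, Bool.not_false, h2]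
      by_contra h4
      exact h3 (h1.2 h4)
  · intro hv
    let Φ₀ : ∀ i, Set (E i →+* ℂ) := fun i => {φ | v ⟨i, φ⟩ = true}
    have h0 : ∀ x : Σ i, (E i →+* ℂ), x.2 ∈ Φ₀ x.1 ↔ v x = true := fun x => Iff.rfl
    refine ⟨Φ₀, fun i φ => ?_, ?_⟩
    · have h1 : v ⟨i, ComplexEmbedding.conjugate φ⟩ = ! v ⟨i, φ⟩ := hv ⟨i, φ⟩
      change v ⟨i, φ⟩ = true ↔ ¬ v ⟨i, ComplexEmbedding.conjugate φ⟩ = true
      rw [h1]
      simp
    · funext x
      by_cases h : v x = true
      · rw [h]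
        exact (hu Φ₀ x).2 ((h0 x).2 h)
      · have h' : v x = false := by
          rw [Bool.not_eq_true] at h
          exact h
        rw [h']
        exact (hu' Φ₀ x).2 (fun h2 => h ((h0 x).1 h2))

end Pool.Agent.TH170.GH
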